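import Mathlib

/-!
Counting monomials: numbers whose products of bounded exponents are linearly independent are not
the values of quadratic polynomials in few variables.
-/

set_option autoImplicit false

namespace Pool.Agent.TH399.RM

open MvPolynomial

/-- the number of monomials of degree at most `D` -/
lemma card_monomials (σ : Type) [Fintype σ] (D : ℕ) :
    Nat.card {m : σ →₀ ℕ | (m.sum fun _ e => e) ≤ D} ≤ (Fintype.card σ + D).choose D := by
  classical
  let g : {m : σ →₀ ℕ | (m.sum fun _ e => e) ≤ D} → Sym (Option σ) D := fun m =>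
    ⟨(Finsupp.toMultiset m.1).map some + Multiset.replicate (D - m.1.sum fun _ e => e) none, by
      have h1 := m.2
      have h2 : m.1.sum (fun _ e => e) ≤ D := h1
      rw [Multiset.card_add, Multiset.card_map, Multiset.card_replicate, Finsupp.card_toMultiset]
      show (m.1.sum fun _ e => e) + (D - m.1.sum fun _ e => e) = D
      omega⟩
  have hg : Function.Injective g := by
    intro a b hab
    apply Subtype.ext
    ext i
    have h1 := congrArg (fun s : Sym (Option σ) D => Multiset.count (some i) s.1) hab
    have h2 : ∀ m : {m : σ →₀ ℕ | (m.sum fun _ e => e) ≤ D},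
        Multiset.count (some i) (g m).1 = m.1 i := by
      intro m
      show Multiset.count (some i) ((Finsupp.toMultiset m.1).map some +
        Multiset.replicate (D - m.1.sum fun _ e => e) none) = m.1 i
      rw [Multiset.count_add, Multiset.count_map_eq_count' _ _ (Option.some_injective σ),
        Finsupp.count_toMultiset, Multiset.count_replicate, if_neg (by simp)]
      simp
    simp only [h2] at h1
    exact h1
  have h := Nat.card_le_card_of_injective g hg
  refine h.trans ?_
  rw [Nat.card_eq_fintype_card, Sym.card_sym_eq_choose, Fintype.card_option]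
  apply le_of_eq
  congr 1
  omega

/-- the dimension of the polynomials of degree at most `D` -/
lemma finrank_le (σ : Type) [Fintype σ] (D : ℕ) :
    Module.finrank ℚ (restrictTotalDegree σ ℚ D) ≤ (Fintype.card σ + D).choose D := by
  have h : Module.finrank ℚ (restrictTotalDegree σ ℚ D) =
      Nat.card {m : σ →₀ ℕ | (m.sum fun _ e => e) ≤ D} :=
    Module.finrank_eq_nat_card_basis (basisRestrictSupport ℚ _)
  rw [h]
  exact card_monomials σ D

/-- Numbers `a i` which are the values of polynomials of degree at most two in `|σ|` variables: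
if all products with exponents below `d` are linearly independent, there are not too many of
them. -/
theorem count_bound {ι σ F : Type} [Fintype ι] [DecidableEq ι] [Fintype σ] [Field F] [CharZero F]
    (a : ι → F) (f : ι → MvPolynomial σ ℚ) (x : σ → F) (hf : ∀ i, (f i).totalDegree ≤ 2)
    (hx : ∀ i, aeval x (f i) = a i) (d : ℕ)
    (hli : LinearIndependent ℚ (fun e : ι → Fin d => ∏ i, a i ^ (e i : ℕ))) :
    d ^ Fintype.card ι ≤ (Fintype.card σ + 2 * (d - 1) * Fintype.card ι).choose
      (2 * (d - 1) * Fintype.card ι) := by
  set D := 2 * (d - 1) * Fintype.card ι with hD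
  let P : (ι → Fin d) → MvPolynomial σ ℚ := fun e => ∏ i, f i ^ (e i : ℕ)
  have hP : ∀ e, P e ∈ restrictTotalDegree σ ℚ D := by
    intro e
    rw [mem_restrictTotalDegree]
    refine (totalDegree_finsetProd _ _).trans ?_
    have h1 : ∀ i ∈ (Finset.univ : Finset ι), (f i ^ (e i : ℕ)).totalDegree ≤ 2 * (d - 1) := by
      intro i _
      refine (totalDegree_pow _ _).trans ?_
      have h2 := (e i).2
      have h3 : (e i : ℕ) ≤ d - 1 := by omega
      calc (e i : ℕ) * (f i).totalDegree ≤ (d - 1) * 2 := Nat.mul_le_mul h3 (hf i)
        _ = 2 * (d - 1) := by ring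
    refine (Finset.sum_le_sum h1).trans ?_
    rw [Finset.sum_const, Finset.card_univ, smul_eq_mul, hD]
    apply le_of_eq
    ring
  let Q : (ι → Fin d) → restrictTotalDegree σ ℚ D := fun e => ⟨P e, hP e⟩
  have hQ : LinearIndependent ℚ Q := by
    have h1 : (fun e : ι → Fin d => ∏ i, a i ^ (e i : ℕ)) =
        ((aeval x : MvPolynomial σ ℚ →ₐ[ℚ] F).toLinearMap ∘ₗ
          (restrictTotalDegree σ ℚ D).subtype) ∘ Q := by
      funext e
      show ∏ i, a i ^ (e i : ℕ) = aeval x (∏ i, f i ^ (e i : ℕ))
      rw [map_prod]
      exact Finset.prod_congr rfl fun i _ => by rw [map_pow, hx i]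
    rw [h1] at hli
    exact hli.of_comp _
  have h2 := hQ.fintype_card_le_finrank
  rw [Fintype.card_fun, Fintype.card_fin] at h2
  exact h2.trans (finrank_le σ D)

end Pool.Agent.TH399.RM
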