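import Mathlib

/-!
Iterated cube roots: products of iterated cube roots of numbers that are multiplicatively
independent modulo cubes are linearly independent.
-/

set_option autoImplicit false
set_option linter.unusedSectionVars false

namespace Pool.Agent.TH399.RM

open Polynomial IntermediateField

variable {ι : Type} [Fintype ι] [DecidableEq ι]

/-- the elements `B i` are nonzero and multiplicatively independent modulo cubes -/
def Ind3 {K : Type} [Field K] (B : ι → K) : Prop :=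
  (∀ i, B i ≠ 0) ∧ ∀ e : ι → ℕ, (∃ q : K, ∏ i, B i ^ e i = q ^ 3) → ∀ i, 3 ∣ e i

lemma Ind3.not_cube {K : Type} [Field K] {B : ι → K} (hB : Ind3 B) (i : ι) (q : K) :
    q ^ 3 ≠ B i := by
  intro h
  have h1 := hB.2 (Pi.single i 1) ⟨q, by
    rw [h, Finset.prod_eq_single i]
    · simp
    · intro j _ hj
      simp [Pi.single_eq_of_ne hj]
    · simp⟩ i
  simp at h1

section step

variable {K M : Type} [Field K] [CharZero K] [Field M] [Algebra K M]

/-- the coordinate identity -/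
lemma coord (b x y z : K) (h1 : x ^ 2 * y + b * y ^ 2 * z + b * x * z ^ 2 = 0)
    (h2 : x ^ 2 * z + x * y ^ 2 + b * y * z ^ 2 = 0) (hb : ∀ q : K, q ^ 3 ≠ b) (hb0 : b ≠ 0) :
    (y = 0 ∧ z = 0) ∨ (x = 0 ∧ z = 0) ∨ (x = 0 ∧ y = 0) := by
  have h3 : x * (b * z ^ 3 - y ^ 3) = 0 := by linear_combination z * h1 - y * h2
  rcases mul_eq_zero.1 h3 with hx | h4
  · subst hx
    have h5 : b * (y ^ 2 * z) = 0 := by linear_combination h1
    rcases mul_eq_zero.1 h5 with h6 | h6
    · exact absurd h6 hb0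
    · rcases mul_eq_zero.1 h6 with h7 | h7
      · right; right; exact ⟨rfl, by simpa using h7⟩
      · right; left; exact ⟨rfl, h7⟩
  · by_cases hz : z = 0
    · subst hz
      have : y ^ 3 = 0 := by linear_combination -h4
      left; exact ⟨by simpa using this, rfl⟩
    · exfalso
      apply hb (y / z)
      rw [div_pow, div_eq_iff (pow_ne_zero 3 hz)]
      linear_combination -h4

variable {b : K} {γ : M}

lemma irr (hb : ∀ q : K, q ^ 3 ≠ b) : Irreducible (X ^ 3 - C b : K[X]) :=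
  X_pow_sub_C_irreducible_of_prime Nat.prime_three hb

lemma minp (hb : ∀ q : K, q ^ 3 ≠ b) (hγ : γ ^ 3 = algebraMap K M b) :
    minpoly K γ = X ^ 3 - C b := by
  symm
  apply minpoly.eq_of_irreducible_of_monic (irr hb)
  · simp [hγ]
  · exact monic_X_pow_sub_C b (by norm_num)

lemma isInt (hγ : γ ^ 3 = algebraMap K M b) : IsIntegral K γ :=
  ⟨X ^ 3 - C b, monic_X_pow_sub_C b (by norm_num), by simp [hγ]⟩

lemma li3 (hb : ∀ q : K, q ^ 3 ≠ b) (hγ : γ ^ 3 = algebraMap K M b) :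
    LinearIndependent K (fun f : Fin 3 => γ ^ (f : ℕ)) := by
  have h := linearIndependent_pow (K := K) γ
  have hd : (minpoly K γ).natDegree = 3 := by
    rw [minp hb hγ]; exact natDegree_X_pow_sub_C
  rw [hd] at h
  exact h

lemma coords0 (hb : ∀ q : K, q ^ 3 ≠ b) (hγ : γ ^ 3 = algebraMap K M b) (x y z : K)
    (h : algebraMap K M x + algebraMap K M y * γ + algebraMap K M z * γ ^ 2 = 0) :
    x = 0 ∧ y = 0 ∧ z = 0 := by
  have h2 : ∑ f : Fin 3, (![x, y, z] f) • γ ^ (f : ℕ) = 0 := by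
    rw [Fin.sum_univ_three, Algebra.smul_def, Algebra.smul_def, Algebra.smul_def]
    show algebraMap K M x * γ ^ 0 + algebraMap K M y * γ ^ 1 + algebraMap K M z * γ ^ 2 = 0
    rw [pow_zero, pow_one, mul_one]
    exact h
  have h1 := Fintype.linearIndependent_iff.1 (li3 hb hγ) ![x, y, z] h2
  exact ⟨h1 0, h1 1, h1 2⟩

/-- every element of `K⟮γ⟯` has coordinates -/
lemma exists_coords (hγ : γ ^ 3 = algebraMap K M b) (q : M) (hq : q ∈ K⟮γ⟯) :
    ∃ x y z : K, q = algebraMap K M x + algebraMap K M y * γ + algebraMap K M z * γ ^ 2 := by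
  have h1 : q ∈ Algebra.adjoin K {γ} := by
    rw [← IntermediateField.adjoin_simple_toSubalgebra_of_isAlgebraic (isInt hγ).isAlgebraic]
    exact hq
  obtain ⟨p, rfl⟩ := (Algebra.adjoin_singleton_eq_range_aeval K γ ▸ h1 :
    q ∈ (aeval (R := K) γ).range)
  have hm : (X ^ 3 - C b : K[X]).Monic := monic_X_pow_sub_C b (by norm_num)
  have h2 : aeval γ p = aeval γ (p %ₘ (X ^ 3 - C b)) := by
    conv_lhs => rw [← modByMonic_add_div p (X ^ 3 - C b)]
    simp [hγ]
  have h3 : (p %ₘ (X ^ 3 - C b)).natDegree < 3 := by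
    have := natDegree_modByMonic_lt p hm (by
      intro h
      have := congrArg natDegree h
      rw [natDegree_X_pow_sub_C] at this
      simp at this)
    rwa [natDegree_X_pow_sub_C] at this
  refine ⟨(p %ₘ (X ^ 3 - C b)).coeff 0, (p %ₘ (X ^ 3 - C b)).coeff 1,
    (p %ₘ (X ^ 3 - C b)).coeff 2, ?_⟩
  show aeval γ p = _
  rw [h2, aeval_eq_sum_range' h3, Finset.sum_range_succ, Finset.sum_range_succ,
    Finset.sum_range_one]
  simp [Algebra.smul_def]

/-- an element of `K` which is a cube in `K⟮γ⟯` -/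
lemma cube_of_cube (hb : ∀ q : K, q ^ 3 ≠ b) (hb0 : b ≠ 0) (hγ : γ ^ 3 = algebraMap K M b)
    (a : K) (q : M) (hq : q ∈ K⟮γ⟯) (h : q ^ 3 = algebraMap K M a) :
    ∃ (y : K) (j : ℕ), a = y ^ 3 * b ^ j := by
  obtain ⟨x, y, z, rfl⟩ := exists_coords hγ q hq
  have h4 : γ ^ 4 = algebraMap K M b * γ := by rw [← hγ]; ring
  have h5 : γ ^ 5 = algebraMap K M b * γ ^ 2 := by rw [← hγ]; ring
  have h6 : γ ^ 6 = algebraMap K M b * algebraMap K M b := by rw [← hγ]; ring
  have h0 := coords0 hb hγ (x ^ 3 + b * y ^ 3 + b ^ 2 * z ^ 3 + 6 * b * x * y * z - a)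
    (3 * (x ^ 2 * y + b * y ^ 2 * z + b * x * z ^ 2))
    (3 * (x ^ 2 * z + x * y ^ 2 + b * y * z ^ 2)) (by
      simp only [map_add, map_sub, map_mul, map_pow, map_ofNat]
      rw [← h, ← hγ]
      ring)
  obtain ⟨e0, e1, e2⟩ := h0
  have h3 : (3 : K) ≠ 0 := by norm_num
  rcases coord b x y z ((mul_eq_zero.1 e1).resolve_left h3) ((mul_eq_zero.1 e2).resolve_left h3)
    hb hb0 with ⟨hy, hz⟩ | ⟨hx, hz⟩ | ⟨hx, hy⟩
  · subst hy hz
    exact ⟨x, 0, by linear_combination -e0⟩
  · subst hx hz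
    exact ⟨y, 1, by linear_combination -e0⟩
  · subst hx hy
    exact ⟨z, 2, by linear_combination -e0⟩

end step

end Pool.Agent.TH399.RM
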