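import Pool.Agent.TH399.RM.Count

/-!
Matrices of rank at most `r` have entries which are quadratic polynomials in `2 n r - r ^ 2`
parameters; the rigidity criterion.
-/

set_option autoImplicit false

namespace Pool.Agent.TH399.RM

open MvPolynomial

/-- The entries of a matrix of rank `q` are values of polynomials of degree at most two in
`q n + (n - q) q` variables. -/
lemma param {F : Type} [Field F] [CharZero F] {n : ℕ} (R : Matrix (Fin n) (Fin n) F) :
    ∃ (σ : Type) (_ : Fintype σ) (x : σ → F) (f : Fin n → Fin n → MvPolynomial σ ℚ),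
      Fintype.card σ = R.rank * n + (n - R.rank) * R.rank ∧
      (∀ i j, (f i j).totalDegree ≤ 2) ∧ ∀ i j, aeval x (f i j) = R i j := by
  classical
  obtain ⟨κ, a, ha, hspan, hli⟩ := exists_linearIndependent' F (fun i => R i)
  have : Finite κ := Finite.of_injective a ha
  have : Fintype κ := Fintype.ofFinite κ
  have hcard : Fintype.card κ = R.rank := by
    rw [Matrix.rank_eq_finrank_span_row]
    have h1 := finrank_span_eq_card hli
    rw [hspan] at h1
    exact h1.symm
  have hrow : ∀ i, ∃ z : κ → F, ∑ k, z k • R (a k) = R i := by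
    intro i
    have h1 : R i ∈ Submodule.span F (Set.range ((fun i => R i) ∘ a)) := by
      rw [hspan]
      exact Submodule.subset_span ⟨i, rfl⟩
    obtain ⟨z, hz⟩ := (Submodule.mem_span_range_iff_exists_fun F).1 h1
    exact ⟨z, hz⟩
  choose z hz using hrow
  refine ⟨(κ × Fin n) ⊕ ({i : Fin n // i ∉ Set.range a} × κ), inferInstance,
    Sum.elim (fun p => R (a p.1) p.2) (fun p => z p.1.1 p.2),
    fun i j => if h : i ∈ Set.range a then X (Sum.inl ((Set.mem_range.1 h).choose, j)) else
      ∑ k, X (Sum.inr (⟨i, h⟩, k)) * X (Sum.inl (k, j)), ?_, ?_, ?_⟩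
  · rw [Fintype.card_sum, Fintype.card_prod, Fintype.card_prod, Fintype.card_fin, hcard]
    have h1 : Fintype.card {i : Fin n // i ∉ Set.range a} = n - Fintype.card κ := by
      rw [Fintype.card_subtype_compl, Fintype.card_fin]
      congr 1
      exact Set.card_range_of_injective ha
    rw [h1, hcard]
  · intro i j
    by_cases h : i ∈ Set.range a
    · simp only [dif_pos h]
      rw [totalDegree_X]
      norm_num
    · simp only [dif_neg h]
      apply totalDegree_finsetSum_le
      intro k _
      refine (totalDegree_mul _ _).trans ?_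
      rw [totalDegree_X, totalDegree_X]
  · intro i j
    by_cases h : i ∈ Set.range a
    · simp only [dif_pos h]
      rw [aeval_X]
      show R (a (Set.mem_range.1 h).choose) j = R i j
      rw [(Set.mem_range.1 h).choose_spec]
    · simp only [dif_neg h]
      rw [map_sum]
      have h1 := congrFun (hz i) j
      rw [Finset.sum_apply] at h1
      rw [← h1]
      apply Finset.sum_congr rfl
      intro k _
      rw [map_mul, aeval_X, aeval_X]
      rfl

lemma nat_ineq (q w t n : ℕ) (h : n = q + w + t) : q * n + (w + t) * q + t ^ 2 ≤ n ^ 2 := by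
  subst h
  nlinarith [Nat.zero_le (w * t), Nat.zero_le (w * w)]

/-- The criterion: let all products of the entries of `A` with exponents below `d` be linearly
independent over the rationals. If `binomial (N + 2 (d-1) u, N) < d ^ u`, where
`N = 2 n r - r ^ 2 = n ^ 2 - (n - r) ^ 2` and `u = n ^ 2 - s`, then `A` is not the sum of a matrix
of rank at most `r` and a matrix with at most `s` nonzero entries. -/
theorem criterion {F : Type} [Field F] [CharZero F] {n : ℕ} (A : Matrix (Fin n) (Fin n) F)
    (d : ℕ) (hd : 1 ≤ d)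
    (hli : LinearIndependent ℚ (fun e : Fin n × Fin n → Fin d => ∏ p, A p.1 p.2 ^ (e p : ℕ)))
    (r s : ℕ) (hr : r ≤ n) (hs : s ≤ n ^ 2)
    (h : ((n ^ 2 - (n - r) ^ 2) + 2 * (d - 1) * (n ^ 2 - s)).choose (2 * (d - 1) * (n ^ 2 - s)) <
      d ^ (n ^ 2 - s))
    (R S : Matrix (Fin n) (Fin n) F) (hA : A = R + S) (hR : R.rank ≤ r) :
    s < Nat.card {p : Fin n × Fin n // S p.1 p.2 ≠ 0} := by
  classical
  by_contra hcon
  push Not at hcon
  obtain ⟨σ, _, x, f, hσ, hf, hx⟩ := param R
  -- unchanged entries
  have hun : n ^ 2 - s ≤ (Finset.univ.filter fun p : Fin n × Fin n => S p.1 p.2 = 0).card := by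
    have h1 : (Finset.univ.filter fun p : Fin n × Fin n => S p.1 p.2 = 0).card +
        (Finset.univ.filter fun p : Fin n × Fin n => ¬ S p.1 p.2 = 0).card = n ^ 2 := by
      rw [Finset.card_filter_add_card_filter_not]
      simp [sq]
    have h2 : Nat.card {p : Fin n × Fin n // S p.1 p.2 ≠ 0} =
        (Finset.univ.filter fun p : Fin n × Fin n => ¬ S p.1 p.2 = 0).card := by
      rw [Nat.card_eq_fintype_card, Fintype.card_subtype]
    omega
  obtain ⟨U, hU, hUc⟩ := Finset.exists_subset_card_eq hun
  -- the family over U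
  have hli2 : LinearIndependent ℚ
      (fun e : U → Fin d => ∏ p : U, (R p.1.1 p.1.2) ^ (e p : ℕ)) := by
    let g : (U → Fin d) → (Fin n × Fin n → Fin d) := fun e p =>
      if hp : p ∈ U then e ⟨p, hp⟩ else ⟨0, hd⟩
    have hg : Function.Injective g := by
      intro e e' hee
      funext p
      have h1 := congrFun hee p.1
      simp only [g, p.2, dif_pos] at h1
      exact h1
    have h2 := hli.comp g hg
    convert h2 using 1
    funext e
    show ∏ p : U, (R p.1.1 p.1.2) ^ (e p : ℕ) = ∏ p, A p.1 p.2 ^ (g e p : ℕ)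
    rw [← Finset.prod_subset (Finset.subset_univ U), ← Finset.prod_coe_sort U]
    · apply Finset.prod_congr rfl
      intro p _
      have h3 : S p.1.1 p.1.2 = 0 := (Finset.mem_filter.1 (hU p.2)).2
      have h4 : A p.1.1 p.1.2 = R p.1.1 p.1.2 := by
        rw [hA, Matrix.add_apply, h3, add_zero]
      rw [h4]
      congr 2
      simp only [g, p.2, dif_pos]
    · intro p _ hp
      simp only [g, dif_neg hp, pow_zero]
  have key := count_bound (fun p : U => R p.1.1 p.1.2) (fun p => f p.1.1 p.1.2) x
    (fun p => hf _ _) (fun p => hx _ _) d hli2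
  have hcU : Fintype.card U = n ^ 2 - s := by rw [Fintype.card_coe, hUc]
  rw [hcU] at key
  have hN : Fintype.card σ ≤ n ^ 2 - (n - r) ^ 2 := by
    rw [hσ]
    have hq : R.rank ≤ n := hR.trans hr
    obtain ⟨t, ht⟩ := Nat.exists_eq_add_of_le hr
    obtain ⟨w, hw⟩ := Nat.exists_eq_add_of_le hR
    have h1 : n - r = t := by omega
    have h2 : n - R.rank = w + t := by omega
    rw [h1, h2]
    have h3 : n = R.rank + w + t := by omega
    apply Nat.le_sub_of_add_le
    exact nat_ineq _ _ _ _ h3
  have hmono : (Fintype.card σ + 2 * (d - 1) * (n ^ 2 - s)).choose (2 * (d - 1) * (n ^ 2 - s)) ≤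
      ((n ^ 2 - (n - r) ^ 2) + 2 * (d - 1) * (n ^ 2 - s)).choose
        (2 * (d - 1) * (n ^ 2 - s)) := by
    apply Nat.choose_le_choose
    omega
  omega

end Pool.Agent.TH399.RM
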