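import Pool.Agent.TH399.RM.Step
import Pool.Agent.TH399.RM.Rank

/-!
Matrices of iterated cube roots of distinct primes are rigid.
-/

set_option autoImplicit false

namespace Pool.Agent.TH399.RM

open Finset

/-- the matrix of the `k`-fold iterated cube roots of the numbers `P i j` -/
noncomputable def rootMatrix (k : ℕ) {n : ℕ} (P : Fin n → Fin n → ℕ) (F : Type) [Field F]
    [Algebra ℝ F] : Matrix (Fin n) (Fin n) F :=
  fun i j => algebraMap ℝ F ((P i j : ℝ) ^ ((1 : ℝ) / 3 ^ k))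

/-- the entries of `P` are distinct prime numbers -/
def DistinctPrimes {n : ℕ} (P : Fin n → Fin n → ℕ) : Prop :=
  (∀ i j, (P i j).Prime) ∧ ∀ i j i' j', P i j = P i' j' → i = i' ∧ j = j'

/-- the first `n ^ 2` primes -/
noncomputable def firstPrimes (n : ℕ) : Fin n → Fin n → ℕ :=
  fun i j => Nat.nth Nat.Prime (n * i + j)

/-! ### independence -/

lemma val_prod {ι : Type} [DecidableEq ι] (P : ℕ) [Fact P.Prime] (s : Finset ι) (f : ι → ℚ)
    (hf : ∀ i ∈ s, f i ≠ 0) : padicValRat P (∏ i ∈ s, f i) = ∑ i ∈ s, padicValRat P (f i) := by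
  induction s using Finset.induction_on with
  | empty => simp
  | insert a s ha ih =>
    rw [prod_insert ha, sum_insert ha, padicValRat.mul (hf a (mem_insert_self a s))
      (prod_ne_zero_iff.2 fun i hi => hf i (mem_insert_of_mem hi)),
      ih fun i hi => hf i (mem_insert_of_mem hi)]

lemma ind3_primes {ι : Type} [Fintype ι] [DecidableEq ι] (P : ι → ℕ) (hP : ∀ i, (P i).Prime)
    (hinj : Function.Injective P) : Ind3 (fun i => (P i : ℚ)) := by
  constructor
  · intro i
    show (P i : ℚ) ≠ 0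
    exact_mod_cast (hP i).ne_zero
  · rintro e ⟨q, hq⟩ i
    have : Fact (P i).Prime := ⟨hP i⟩
    have hne : ∀ j, ((P j : ℚ)) ≠ 0 := fun j => by exact_mod_cast (hP j).ne_zero
    have hq0 : q ≠ 0 := by
      intro h
      rw [h] at hq
      have : ∏ j, (P j : ℚ) ^ e j ≠ 0 := prod_ne_zero_iff.2 fun j _ => pow_ne_zero _ (hne j)
      apply this
      rw [hq]
      norm_num
    have h1 := congrArg (padicValRat (P i)) hq
    rw [val_prod _ _ _ (fun j _ => pow_ne_zero _ (hne j)), padicValRat.pow] at h1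
    have h2 : ∀ j ∈ (univ : Finset ι), padicValRat (P i) ((P j : ℚ) ^ e j) =
        if j = i then (e i : ℤ) else 0 := by
      intro j _
      rw [padicValRat.pow]
      by_cases hj : j = i
      · subst hj
        rw [if_pos rfl, padicValRat.self (hP j).one_lt, mul_one]
      · rw [if_neg hj]
        have h3 : padicValRat (P i) (P j : ℚ) = 0 := by
          rw [padicValRat.of_nat]
          have h4 : ¬ P i ∣ P j := by
            intro h5
            exact hj (hinj ((Nat.prime_dvd_prime_iff_eq (hP i) (hP j)).1 h5).symm)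
          rw [padicValNat.eq_zero_of_not_dvd h4]
          rfl
        rw [h3, mul_zero]
    rw [sum_congr rfl h2, sum_ite_eq' univ i, if_pos (mem_univ i)] at h1
    have h3 : (3 : ℤ) ∣ (e i : ℤ) := ⟨padicValRat (P i) q, by rw [h1]; norm_num⟩
    exact_mod_cast h3

lemma idx_inj (n : ℕ) : Function.Injective
    (fun p : Fin n × Fin n => Nat.nth Nat.Prime (n * (p.1 : ℕ) + p.2)) := by
  intro p q h
  have h1 : n * (p.1 : ℕ) + p.2 = n * (q.1 : ℕ) + q.2 :=
    Nat.nth_injective Nat.infinite_setOfPred_prime h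
  have hn : 0 < n := Nat.lt_of_le_of_lt (Nat.zero_le _) p.1.2
  have h2 : (n * (p.1 : ℕ) + p.2) / n = (n * (q.1 : ℕ) + q.2) / n := by rw [h1]
  have h3 : (n * (p.1 : ℕ) + p.2) % n = (n * (q.1 : ℕ) + q.2) % n := by rw [h1]
  rw [Nat.mul_add_div hn, Nat.mul_add_div hn, Nat.div_eq_of_lt p.2.2, Nat.div_eq_of_lt q.2.2] at h2
  rw [Nat.mul_add_mod, Nat.mul_add_mod, Nat.mod_eq_of_lt p.2.2, Nat.mod_eq_of_lt q.2.2] at h3
  exact Prod.ext (Fin.ext (by omega)) (Fin.ext h3)

lemma charZero_of (F : Type) [Field F] [Algebra ℝ F] : CharZero F :=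
  charZero_of_injective_algebraMap (algebraMap ℝ F).injective

lemma firstPrimes_distinct (n : ℕ) : DistinctPrimes (firstPrimes n) := by
  refine ⟨fun i j => Nat.prime_nth_prime _, fun i j i' j' h => ?_⟩
  have h1 := idx_inj n (a₁ := (i, j)) (a₂ := (i', j')) h
  exact ⟨congrArg Prod.fst h1, congrArg Prod.snd h1⟩

theorem linind_root (k : ℕ) {n : ℕ} (P : Fin n → Fin n → ℕ) (hP : DistinctPrimes P) (F : Type)
    [Field F] [Algebra ℝ F] [CharZero F] :
    LinearIndependent ℚ (fun e : Fin n × Fin n → Fin (3 ^ k) =>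
      ∏ p, rootMatrix k P F p.1 p.2 ^ (e p : ℕ)) := by
  have hB := ind3_primes (fun p : Fin n × Fin n => P p.1 p.2)
    (fun p => hP.1 _ _) (fun p q h => Prod.ext (hP.2 _ _ _ _ h).1 (hP.2 _ _ _ _ h).2)
  have h := linind (∑ _p : Fin n × Fin n, k) ℚ F
    (fun p : Fin n × Fin n => (P p.1 p.2 : ℚ)) hB
    (fun _ => k) rfl (fun p => rootMatrix k P F p.1 p.2) (by
      intro p
      show (algebraMap ℝ F ((P p.1 p.2 : ℝ) ^ ((1 : ℝ) / 3 ^ k))) ^ (3 ^ k) = _
      rw [← map_pow, ← Real.rpow_natCast, ← Real.rpow_mul (Nat.cast_nonneg _)]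
      have h1 : (1 : ℝ) / 3 ^ k * ((3 ^ k : ℕ) : ℝ) = 1 := by
        push_cast
        field_simp
      rw [h1, Real.rpow_one]
      simp)
  let g : (Fin n × Fin n → Fin (3 ^ k)) → {e : Fin n × Fin n → ℕ // ∀ i, e i < 3 ^ k} :=
    fun e => ⟨fun p => (e p : ℕ), fun p => (e p).2⟩
  have hg : Function.Injective g := by
    intro e e' hee
    funext p
    apply Fin.ext
    have := congrArg (fun u => u.1 p) hee
    exact this
  exact h.comp g hg

/-! ### numerical bounds -/

lemma choose_mul_le (N D : ℕ) :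
    (((N + D).choose D : ℕ) : ℝ) * (N : ℝ) ^ N ≤ (3 * ((N : ℝ) + D)) ^ N := by
  have h1 : (((N + D).choose N : ℕ) : ℝ) ≤ ((N + D : ℕ) : ℝ) ^ N / (N.factorial : ℝ) := by
    have := Nat.choose_le_pow_div (α := ℝ) N (N + D)
    exact this
  have h2 : (N + D).choose D = (N + D).choose N := by
    exact (Nat.choose_symm_add).symm
  have h3 : (N : ℝ) ^ N / (N.factorial : ℝ) ≤ Real.exp N :=
    Real.pow_div_factorial_le_exp _ (Nat.cast_nonneg N) N
  have h4 : Real.exp N ≤ (3 : ℝ) ^ N := by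
    have h5 : Real.exp N = (Real.exp 1) ^ N := by
      rw [← Real.exp_nat_mul, mul_one]
    rw [h5]
    exact pow_le_pow_left₀ (Real.exp_pos 1).le (by linarith [Real.exp_one_lt_d9]) N
  have hfac : (0 : ℝ) < N.factorial := by exact_mod_cast N.factorial_pos
  rw [h2]
  calc (((N + D).choose N : ℕ) : ℝ) * (N : ℝ) ^ N
      ≤ ((N + D : ℕ) : ℝ) ^ N / (N.factorial : ℝ) * (N : ℝ) ^ N :=
        mul_le_mul_of_nonneg_right h1 (by positivity)
    _ = ((N + D : ℕ) : ℝ) ^ N * ((N : ℝ) ^ N / (N.factorial : ℝ)) := by ring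
    _ ≤ ((N + D : ℕ) : ℝ) ^ N * (3 : ℝ) ^ N :=
        mul_le_mul_of_nonneg_left (h3.trans h4) (by positivity)
    _ = (3 * ((N : ℝ) + D)) ^ N := by
        rw [← mul_pow]
        push_cast
        ring

lemma choose_le (N u d : ℕ) (hd : 1 ≤ d) :
    (N + 2 * (d - 1) * u).choose (2 * (d - 1) * u) ≤ 3 ^ (N + 2 * u) * d ^ N := by
  rcases Nat.eq_zero_or_pos N with hN | hN
  · subst hN
    simp only [Nat.zero_add, Nat.choose_self, pow_zero, mul_one]
    exact Nat.one_le_pow _ _ (by norm_num)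
  have h1 := choose_mul_le N (2 * (d - 1) * u)
  have hN' : (0 : ℝ) < N := by exact_mod_cast hN
  have hd' : (1 : ℝ) ≤ d := by exact_mod_cast hd
  have h2 : ((2 * (d - 1) * u : ℕ) : ℝ) ≤ 2 * d * u := by
    have : 2 * (d - 1) * u ≤ 2 * d * u := by
      apply Nat.mul_le_mul_right
      omega
    exact_mod_cast this
  have h3 : (N : ℝ) + ((2 * (d - 1) * u : ℕ) : ℝ) ≤ d * (N + 2 * u) := by
    nlinarith
  have h4 : ((N : ℝ) + 2 * u) ^ N ≤ (N : ℝ) ^ N * 3 ^ (2 * u) := by
    have h5 : (N : ℝ) + 2 * u = N * (1 + 2 * u / N) := by field_simp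
    rw [h5, mul_pow]
    apply mul_le_mul_of_nonneg_left _ (by positivity)
    have h6 : 1 + 2 * (u : ℝ) / N ≤ Real.exp (2 * u / N) := by
      have := Real.add_one_le_exp (2 * (u : ℝ) / N)
      linarith
    calc (1 + 2 * (u : ℝ) / N) ^ N ≤ (Real.exp (2 * u / N)) ^ N :=
          pow_le_pow_left₀ (by positivity) h6 N
      _ = (Real.exp 1) ^ (2 * u) := by
          rw [← Real.exp_nat_mul, ← Real.exp_nat_mul]
          congr 1
          push_cast
          field_simp
      _ ≤ 3 ^ (2 * u) := pow_le_pow_left₀ (Real.exp_pos 1).le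
          (by linarith [Real.exp_one_lt_d9]) _
  have h7 : (((N + 2 * (d - 1) * u).choose (2 * (d - 1) * u) : ℕ) : ℝ) * (N : ℝ) ^ N ≤
      ((3 : ℝ) ^ (N + 2 * u) * d ^ N) * (N : ℝ) ^ N := by
    refine h1.trans ?_
    calc (3 * ((N : ℝ) + ((2 * (d - 1) * u : ℕ) : ℝ))) ^ N
        ≤ (3 * (d * ((N : ℝ) + 2 * u))) ^ N :=
          pow_le_pow_left₀ (by positivity) (by linarith) N
      _ = 3 ^ N * d ^ N * ((N : ℝ) + 2 * u) ^ N := by rw [mul_pow, mul_pow]; ring
      _ ≤ 3 ^ N * d ^ N * ((N : ℝ) ^ N * 3 ^ (2 * u)) :=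
          mul_le_mul_of_nonneg_left h4 (by positivity)
      _ = _ := by rw [pow_add]; ring
  have h8 : (0 : ℝ) < (N : ℝ) ^ N := by positivity
  have h9 := le_of_mul_le_mul_right h7 h8
  exact_mod_cast h9

lemma choose_lt (N u : ℕ) (hu : 1 ≤ u) (h : 4 * N ≤ u) :
    (N + 2 * (3 - 1) * u).choose (2 * (3 - 1) * u) < 3 ^ u := by
  have e1 : 2 * (3 - 1) * u = 4 * u := by norm_num
  rw [e1]
  set M := u / 4 with hM
  have hNM : N ≤ M := by omega
  have h1 : (N + 4 * u).choose (4 * u) ≤ (M + 4 * u).choose (4 * u) :=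
    Nat.choose_le_choose _ (by omega)
  refine lt_of_le_of_lt h1 ?_
  rcases Nat.lt_or_ge M 2 with h2 | h2
  · interval_cases hM' : M
    · rw [Nat.zero_add, Nat.choose_self]
      exact Nat.one_lt_pow (by omega) (by norm_num)
    · have h3 : (1 + 4 * u).choose (4 * u) = 4 * u + 1 := by
        rw [Nat.add_comm, Nat.choose_succ_self_right]
      rw [h3]
      have h4 : u < 8 := by omega
      have h5 : 4 ≤ u := by omega
      interval_cases u <;> norm_num
  · have h3 := choose_mul_le M (4 * u)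
    have hM0 : (0 : ℝ) < M := by
      have : 0 < M := by omega
      exact_mod_cast this
    have h4 : (3 * ((M : ℝ) + ((4 * u : ℕ) : ℝ))) ≤ 69 * M := by
      have h5 : M + 4 * u ≤ 23 * M := by omega
      have h6 : (M : ℝ) + ((4 * u : ℕ) : ℝ) ≤ 23 * M := by exact_mod_cast h5
      linarith
    have h5 : (((M + 4 * u).choose (4 * u) : ℕ) : ℝ) * (M : ℝ) ^ M ≤ (69 : ℝ) ^ M * (M : ℝ) ^ M := by
      refine h3.trans ?_
      rw [← mul_pow]
      exact pow_le_pow_left₀ (by positivity) h4 M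
    have h6 := le_of_mul_le_mul_right h5 (by positivity)
    have h7 : (M + 4 * u).choose (4 * u) ≤ 69 ^ M := by exact_mod_cast h6
    calc (M + 4 * u).choose (4 * u) ≤ 69 ^ M := h7
      _ < 81 ^ M := Nat.pow_lt_pow_left (by norm_num) (by omega)
      _ = 3 ^ (4 * M) := by rw [pow_mul]; norm_num
      _ ≤ 3 ^ u := Nat.pow_le_pow_right (by norm_num) (by omega)

/-! ### rigidity -/

/-- general rigidity bound -/
theorem rigid_general (F : Type) [Field F] [Algebra ℝ F] (n k r s : ℕ)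
    (P : Fin n → Fin n → ℕ) (hP : DistinctPrimes P) (hr : r ≤ n)
    (h : 3 * n ^ 2 + k * s < k * (n - r) ^ 2) (R S : Matrix (Fin n) (Fin n) F)
    (hA : rootMatrix k P F = R + S) (hR : R.rank ≤ r) :
    s < Nat.card {p : Fin n × Fin n // S p.1 p.2 ≠ 0} := by
  have : CharZero F := charZero_of F
  have hs : s < (n - r) ^ 2 := by
    by_contra hcon
    push Not at hcon
    have := Nat.mul_le_mul_left k hcon
    omega
  have hle : (n - r) ^ 2 ≤ n ^ 2 := Nat.pow_le_pow_left (Nat.sub_le n r) 2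
  apply criterion (rootMatrix k P F) (3 ^ k) (Nat.one_le_pow _ _ (by norm_num))
    (linind_root k P hP F) r s hr (by omega) _ R S hA hR
  refine lt_of_le_of_lt (choose_le _ _ _ (Nat.one_le_pow _ _ (by norm_num))) ?_
  rw [← pow_mul, ← pow_add, ← pow_mul]
  apply Nat.pow_lt_pow_right (by norm_num)
  obtain ⟨w, hw⟩ := Nat.exists_eq_add_of_le hle
  obtain ⟨t, ht⟩ := Nat.exists_eq_add_of_lt hs
  have e1 : n ^ 2 - (n - r) ^ 2 = w := by omega
  have e2 : n ^ 2 - s = w + t + 1 := by omega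
  rw [e1, e2]
  have h1 : 3 * n ^ 2 < k * (t + 1) := by
    rw [ht] at h
    have : k * (s + t + 1) = k * s + k * (t + 1) := by ring
    omega
  have h2 : k * (w + t + 1) = k * w + k * (t + 1) := by ring
  rw [h2]
  omega

/-- cube roots -/
theorem rigid_cube (F : Type) [Field F] [Algebra ℝ F] (n r s : ℕ)
    (P : Fin n → Fin n → ℕ) (hP : DistinctPrimes P) (hn : 0 < n) (hr : 8 * r ≤ n)
    (hs : 16 * s ≤ n ^ 2) (R S : Matrix (Fin n) (Fin n) F)
    (hA : rootMatrix 1 P F = R + S) (hR : R.rank ≤ r) :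
    s < Nat.card {p : Fin n × Fin n // S p.1 p.2 ≠ 0} := by
  have : CharZero F := charZero_of F
  have hn2 : 0 < n ^ 2 := by positivity
  apply criterion (rootMatrix 1 P F) (3 ^ 1) (by norm_num)
    (linind_root 1 P hP F) r s (by omega) (by omega) _ R S hA hR
  have h1 := choose_lt (n ^ 2 - (n - r) ^ 2) (n ^ 2 - s) (by omega) (by
    obtain ⟨t, ht⟩ : ∃ t, n = 8 * r + t := Nat.exists_eq_add_of_le hr
    have e1 : n - r = 7 * r + t := by omega
    have e2 : n ^ 2 - (n - r) ^ 2 = 15 * r ^ 2 + 2 * r * t := by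
      rw [e1]
      apply Nat.sub_eq_of_eq_add
      rw [ht]
      ring
    rw [e2]
    have e3 : 15 * n ^ 2 ≤ 16 * (n ^ 2 - s) := by omega
    have e4 : 64 * (15 * r ^ 2 + 2 * r * t) ≤ 15 * n ^ 2 := by
      rw [ht]
      nlinarith [Nat.zero_le (r * t), Nat.zero_le (t * t)]
    omega)
  simpa using h1

/-! ### the size of the primes -/

lemma two_sq_lt (x : ℕ) : 2 * (x + 1) ^ 2 < 4 ^ (x + 1) := by
  induction x with
  | zero => norm_num
  | succ x ih =>
    have : 4 ^ (x + 1 + 1) = 4 * 4 ^ (x + 1) := by ring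
    rw [this]
    nlinarith

/-- the prime with index `m` is at most quadratic in `m` -/
theorem nth_prime_le (m : ℕ) : Nat.nth Nat.Prime m ≤ 2 * (m + 1) ^ 2 := by
  set x := m + 1 with hx
  have hcount : m < Nat.count Nat.Prime (2 * x ^ 2 + 1) := by
    by_contra hcon
    push Not at hcon
    have hN : 0 < x ^ 2 := by positivity
    have h1 := Nat.four_pow_le_two_mul_self_mul_centralBinom (x ^ 2) hN
    have h2 : Nat.centralBinom (x ^ 2) ≤ (2 * x ^ 2) ^ m := by
      rw [← Nat.prod_pow_factorization_centralBinom (x ^ 2)]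
      have h3 : ∏ p ∈ range (2 * x ^ 2 + 1), p ^ (Nat.centralBinom (x ^ 2)).factorization p =
          ∏ p ∈ (range (2 * x ^ 2 + 1)).filter Nat.Prime,
            p ^ (Nat.centralBinom (x ^ 2)).factorization p := by
        rw [prod_filter]
        apply prod_congr rfl
        intro p _
        split_ifs with hp
        · rfl
        · rw [Nat.factorization_eq_zero_of_not_prime _ hp, pow_zero]
      rw [h3]
      have h4 : ∏ p ∈ (range (2 * x ^ 2 + 1)).filter Nat.Prime,
            p ^ (Nat.centralBinom (x ^ 2)).factorization p ≤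
          ∏ _p ∈ (range (2 * x ^ 2 + 1)).filter Nat.Prime, (2 * x ^ 2) := by
        apply prod_le_prod'
        intro p _
        exact Nat.pow_factorization_choose_le (by positivity)
      refine h4.trans ?_
      rw [prod_const]
      apply Nat.pow_le_pow_right (by positivity)
      rwa [← Nat.count_eq_card_filter_range]
    have h5 : 4 ^ (x ^ 2) ≤ (2 * x ^ 2) ^ x := by
      calc 4 ^ (x ^ 2) ≤ 2 * x ^ 2 * Nat.centralBinom (x ^ 2) := h1
        _ ≤ 2 * x ^ 2 * (2 * x ^ 2) ^ m := Nat.mul_le_mul_left _ h2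
        _ = (2 * x ^ 2) ^ x := by rw [hx, pow_succ]; ring
    rw [sq, pow_mul] at h5
    have h6 := (Nat.pow_le_pow_iff_left (by omega : x ≠ 0)).1 h5
    have h7 := two_sq_lt m
    rw [← hx] at h7
    rw [sq] at h7
    omega
  have h8 := Nat.nth_lt_of_lt_count hcount
  omega

theorem firstPrimes_le (n : ℕ) (i j : Fin n) : firstPrimes n i j ≤ 2 * n ^ 4 := by
  refine (nth_prime_le _).trans ?_
  have h1 : n * (i : ℕ) + j + 1 ≤ n ^ 2 := by
    have hi := i.2
    have hj := j.2
    have h2 : n * ((i : ℕ) + 1) ≤ n * n := Nat.mul_le_mul_left n hi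
    rw [sq]
    have h3 : n * ((i : ℕ) + 1) = n * i + n := by ring
    omega
  have h2 := Nat.pow_le_pow_left h1 2
  have h3 : (n ^ 2) ^ 2 = n ^ 4 := by ring
  omega

end Pool.Agent.TH399.RM
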