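import Pool.Agent.TH399.RM.Cube

/-!
Adjoining a cube root keeps the elements independent modulo cubes; linear independence of the
products of iterated cube roots.
-/

set_option autoImplicit false
set_option linter.unusedSectionVars false

namespace Pool.Agent.TH399.RM

open Polynomial IntermediateField

variable {ι : Type} [Fintype ι] [DecidableEq ι]

section step

variable {K M : Type} [Field K] [CharZero K] [Field M] [Algebra K M]
variable {b : K} {γ : M}

/-- the generator as an element of the intermediate field -/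
noncomputable def gam (K : Type) {M : Type} [Field K] [Field M] [Algebra K M] (γ : M) : K⟮γ⟯ :=
  AdjoinSimple.gen K γ

lemma gam_coe : ((gam K γ : K⟮γ⟯) : M) = γ := AdjoinSimple.coe_gen K γ

lemma gam_cube (hγ : γ ^ 3 = algebraMap K M b) : (gam K γ) ^ 3 = algebraMap K K⟮γ⟯ b := by
  apply Subtype.ext
  rw [SubmonoidClass.coe_pow, gam_coe, hγ]
  rfl

lemma finrank_three (hb : ∀ q : K, q ^ 3 ≠ b) (hγ : γ ^ 3 = algebraMap K M b) :
    Module.finrank K K⟮γ⟯ = 3 := by
  rw [IntermediateField.adjoin.finrank (isInt hγ), minp hb hγ]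
  exact natDegree_X_pow_sub_C

lemma norm_gam (hb : ∀ q : K, q ^ 3 ≠ b) (hγ : γ ^ 3 = algebraMap K M b) :
    Algebra.norm K (gam K γ) = b := by
  have h := Algebra.PowerBasis.norm_gen_eq_coeff_zero_minpoly
    (IntermediateField.adjoin.powerBasis (isInt hγ))
  rw [IntermediateField.adjoin.powerBasis_gen, IntermediateField.adjoin.powerBasis_dim,
    IntermediateField.minpoly_gen, minp hb hγ, natDegree_X_pow_sub_C] at h
  show Algebra.norm K (AdjoinSimple.gen K γ) = b
  rw [h]
  simp only [coeff_sub, coeff_X_pow, coeff_C_zero]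
  norm_num

/-- the step: replace `B i0` by its cube root -/
lemma Ind3.step {B : ι → K} (hB : Ind3 B) (i0 : ι) (hγ : γ ^ 3 = algebraMap K M (B i0)) :
    Ind3 (Function.update (fun i => algebraMap K K⟮γ⟯ (B i)) i0 (gam K γ)) := by
  have hb : ∀ q : K, q ^ 3 ≠ B i0 := hB.not_cube i0
  have hb0 : B i0 ≠ 0 := hB.1 i0
  have hg0 : gam K γ ≠ 0 := by
    intro h
    have h1 := gam_cube (K := K) hγ
    rw [h] at h1
    apply hb0
    have h2 : algebraMap K K⟮γ⟯ (B i0) = 0 := by rw [← h1]; simp
    exact (_root_.map_eq_zero _).1 h2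
  constructor
  · intro i
    by_cases hi : i = i0
    · subst hi
      simpa using hg0
    · rw [Function.update_of_ne hi]
      exact (_root_.map_ne_zero _).2 (hB.1 i)
  · rintro e ⟨q, hq⟩
    -- split the product
    set m : K := ∏ i ∈ Finset.univ.erase i0, B i ^ e i with hm
    have hprod : (gam K γ) ^ e i0 * algebraMap K K⟮γ⟯ m = q ^ 3 := by
      rw [← hq, ← Finset.mul_prod_erase Finset.univ _ (Finset.mem_univ i0), hm, map_prod]
      congr 1
      · rw [Function.update_self]
      · apply Finset.prod_congr rfl
        intro i hi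
        rw [Function.update_of_ne (Finset.ne_of_mem_erase hi), map_pow]
    have hm0 : m ≠ 0 := Finset.prod_ne_zero_iff.2 fun i _ => pow_ne_zero _ (hB.1 i)
    -- the norm
    have hnorm : B i0 ^ e i0 * m ^ 3 = (Algebra.norm K q) ^ 3 := by
      have h := congrArg (Algebra.norm K) hprod
      rw [map_mul, map_pow, norm_gam hb hγ, Algebra.norm_algebraMap, finrank_three hb hγ,
        map_pow] at h
      exact h
    have h3 : 3 ∣ e i0 := by
      have h := hB.2 (Pi.single i0 (e i0)) ⟨Algebra.norm K q / m, by
        rw [Finset.prod_eq_single i0]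
        · rw [Pi.single_eq_same, div_pow, ← hnorm]
          field_simp
        · intro j _ hj
          rw [Pi.single_eq_of_ne hj, pow_zero]
        · simp⟩ i0
      rwa [Pi.single_eq_same] at h
    obtain ⟨t, ht⟩ := h3
    have hcube : ((q : K⟮γ⟯) : M) ^ 3 = algebraMap K M (B i0 ^ t * m) := by
      have h : q ^ 3 = algebraMap K K⟮γ⟯ (B i0 ^ t * m) := by
        rw [← hprod, ht, pow_mul, gam_cube hγ, map_mul, map_pow]
      have h2 := congrArg (fun u : K⟮γ⟯ => (u : M)) h
      simpa using h2
    obtain ⟨y, j, hy⟩ := cube_of_cube hb hb0 hγ _ (q : M) q.2 hcube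
    have h5 : ∀ i, 3 ∣ (Function.update e i0 (t + 2 * j)) i := by
      apply hB.2
      refine ⟨y * B i0 ^ j, ?_⟩
      rw [← Finset.mul_prod_erase Finset.univ _ (Finset.mem_univ i0), Function.update_self]
      have h6 : ∏ i ∈ Finset.univ.erase i0, B i ^ (Function.update e i0 (t + 2 * j)) i = m := by
        apply Finset.prod_congr rfl
        intro i hi
        rw [Function.update_of_ne (Finset.ne_of_mem_erase hi)]
      rw [h6, pow_add]
      linear_combination B i0 ^ (2 * j) * hy
    intro i
    by_cases hi : i = i0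
    · subst hi
      exact ⟨t, ht⟩
    · have := h5 i
      rwa [Function.update_of_ne hi] at this

end step

/-- Products of iterated cube roots are linearly independent: if the elements `B i` of the field
`K` are nonzero and independent modulo cubes and `c i ^ (3 ^ h i) = B i` for elements `c i` of an
extension field, then the products `∏ c i ^ e i` with `e i < 3 ^ h i` are linearly independent
over `K`. -/
theorem linind : ∀ (n : ℕ) (K M : Type) [Field K] [CharZero K] [Field M] [Algebra K M]
    (B : ι → K) (_ : Ind3 B) (h : ι → ℕ) (_ : ∑ i, h i = n) (c : ι → M)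
    (_ : ∀ i, c i ^ (3 ^ h i) = algebraMap K M (B i)),
    LinearIndependent K (fun e : {e : ι → ℕ // ∀ i, e i < 3 ^ h i} => ∏ i, c i ^ e.1 i) := by
  intro n
  induction n with
  | zero =>
    intro K M _ _ _ _ B hB h hh c hc
    have h0 : ∀ i, h i = 0 := fun i => by
      have := Finset.sum_eq_zero_iff.1 hh i (Finset.mem_univ i)
      exact this
    have hs : ∀ e : {e : ι → ℕ // ∀ i, e i < 3 ^ h i}, ∏ i, c i ^ e.1 i = 1 := by
      intro e
      apply Finset.prod_eq_one
      intro i _
      have := e.2 i
      rw [h0 i] at this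
      have h1 : e.1 i = 0 := by simpa using this
      rw [h1, pow_zero]
    have hsub : Subsingleton {e : ι → ℕ // ∀ i, e i < 3 ^ h i} := by
      constructor
      intro a a'
      apply Subtype.ext
      funext i
      have h1 := a.2 i
      have h2 := a'.2 i
      rw [h0 i, pow_zero] at h1 h2
      omega
    simp only [hs]
    rw [linearIndependent_iff_injective_finsuppLinearCombination]
    intro f g hfg
    have hfg' : ∀ f : {e : ι → ℕ // ∀ i, e i < 3 ^ h i} →₀ K,
        Finsupp.linearCombination K (fun _ => (1 : M)) f = algebraMap K M (f.sum fun _ a => a) := by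
      intro f
      rw [Finsupp.linearCombination_apply, Finsupp.sum, Finsupp.sum, map_sum]
      exact Finset.sum_congr rfl fun x _ => by rw [Algebra.smul_def, mul_one]
    rw [hfg', hfg'] at hfg
    have hfg2 := (algebraMap K M).injective hfg
    have hval : ∀ (f : {e : ι → ℕ // ∀ i, e i < 3 ^ h i} →₀ K) (a : _),
        (f.sum fun _ a => a) = f a := by
      intro f a
      rw [Finsupp.sum]
      by_cases ha : a ∈ f.support
      · rw [show f.support = {a} from Finset.eq_singleton_iff_unique_mem.2
          ⟨ha, fun x _ => Subsingleton.elim _ _⟩, Finset.sum_singleton]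
      · rw [Finsupp.notMem_support_iff.1 ha]
        rw [show f.support = ∅ from Finset.eq_empty_of_forall_notMem fun x hx =>
          ha ((Subsingleton.elim x a) ▸ hx), Finset.sum_empty]
    ext a
    rw [← hval f a, ← hval g a, hfg2]
  | succ n ih =>
    intro K M _ _ _ _ B hB h hh c hc
    obtain ⟨i0, hi0⟩ : ∃ i0, 0 < h i0 := by
      by_contra hcon
      push Not at hcon
      have : ∑ i, h i = 0 := Finset.sum_eq_zero fun i _ => Nat.le_zero.1 (hcon i)
      omega
    set u := h i0 - 1 with hu
    have hu1 : h i0 = u + 1 := by omega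
    set γ : M := c i0 ^ (3 ^ u) with hγdef
    have hγ : γ ^ 3 = algebraMap K M (B i0) := by
      rw [hγdef, ← pow_mul, ← pow_succ, ← hu1, hc i0]
    have hb := hB.not_cube i0
    have hstep := hB.step (M := M) i0 hγ
    set h' : ι → ℕ := Function.update h i0 u with hh'
    have hsum : ∑ i, h' i = n := by
      have h1 : ∑ i, h i = h i0 + ∑ i ∈ Finset.univ.erase i0, h i :=
        (Finset.add_sum_erase Finset.univ _ (Finset.mem_univ i0)).symm
      have h2 : ∑ i, h' i = h' i0 + ∑ i ∈ Finset.univ.erase i0, h' i :=
        (Finset.add_sum_erase Finset.univ _ (Finset.mem_univ i0)).symm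
      have h3 : ∑ i ∈ Finset.univ.erase i0, h' i = ∑ i ∈ Finset.univ.erase i0, h i := by
        apply Finset.sum_congr rfl
        intro i hi
        rw [hh', Function.update_of_ne (Finset.ne_of_mem_erase hi)]
      have h4 : h' i0 = u := by rw [hh', Function.update_self]
      omega
    have key := ih K⟮γ⟯ M _ hstep h' hsum c (by
      intro i
      by_cases hi : i = i0
      · subst hi
        rw [hh', Function.update_self, Function.update_self]
        show c i ^ 3 ^ u = ((gam K γ : K⟮γ⟯) : M)
        rw [gam_coe]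
      · rw [hh', Function.update_of_ne hi, Function.update_of_ne hi, hc i]
        rfl)
    have hli : LinearIndependent K (fun f : Fin 3 => (gam K γ) ^ (f : ℕ)) := by
      have h1 := li3 (K := K) (M := M) hb hγ
      have h2 : (fun f : Fin 3 => γ ^ (f : ℕ)) =
          (K⟮γ⟯.val.toLinearMap) ∘ (fun f : Fin 3 => (gam K γ) ^ (f : ℕ)) := by
        funext f
        show γ ^ (f : ℕ) = (((gam K γ) ^ (f : ℕ) : K⟮γ⟯) : M)
        rw [SubmonoidClass.coe_pow, gam_coe]
      rw [h2] at h1
      exact h1.of_comp _
    have hprod := linearIndependent_smul hli key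
    -- reindex
    have hlt : ∀ e : {e : ι → ℕ // ∀ i, e i < 3 ^ h i}, e.1 i0 / 3 ^ u < 3 := by
      intro e
      have := e.2 i0
      rw [hu1, pow_succ] at this
      exact Nat.div_lt_of_lt_mul this
    have hlt2 : ∀ e : {e : ι → ℕ // ∀ i, e i < 3 ^ h i},
        ∀ i, (Function.update e.1 i0 (e.1 i0 % 3 ^ u)) i < 3 ^ h' i := by
      intro e i
      by_cases hi : i = i0
      · subst hi
        rw [hh', Function.update_self, Function.update_self]
        exact Nat.mod_lt _ (by positivity)
      · rw [hh', Function.update_of_ne hi, Function.update_of_ne hi]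
        exact e.2 i
    let g : {e : ι → ℕ // ∀ i, e i < 3 ^ h i} → Fin 3 × {e : ι → ℕ // ∀ i, e i < 3 ^ h' i} :=
      fun e => (⟨e.1 i0 / 3 ^ u, hlt e⟩, ⟨Function.update e.1 i0 (e.1 i0 % 3 ^ u), hlt2 e⟩)
    have hg : Function.Injective g := by
      intro e e' hee
      have h1 : e.1 i0 / 3 ^ u = e'.1 i0 / 3 ^ u := by
        have := congrArg (fun p => (p.1 : ℕ)) hee
        exact this
      have h2 : Function.update e.1 i0 (e.1 i0 % 3 ^ u) =
          Function.update e'.1 i0 (e'.1 i0 % 3 ^ u) := by
        have := congrArg (fun p => p.2.1) hee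
        exact this
      apply Subtype.ext
      funext i
      by_cases hi : i = i0
      · subst hi
        have h3 := congrFun h2 i
        rw [Function.update_self, Function.update_self] at h3
        rw [← Nat.div_add_mod (e.1 i) (3 ^ u), ← Nat.div_add_mod (e'.1 i) (3 ^ u), h1, h3]
      · have h3 := congrFun h2 i
        rwa [Function.update_of_ne hi, Function.update_of_ne hi] at h3
    have hfin := hprod.comp g hg
    convert hfin using 1
    funext e
    show ∏ i, c i ^ e.1 i = (gam K γ) ^ (e.1 i0 / 3 ^ u) •
      ∏ i, c i ^ (Function.update e.1 i0 (e.1 i0 % 3 ^ u)) i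
    rw [Algebra.smul_def]
    have h1 : (algebraMap K⟮γ⟯ M) ((gam K γ) ^ (e.1 i0 / 3 ^ u)) =
        c i0 ^ (3 ^ u * (e.1 i0 / 3 ^ u)) := by
      show (((gam K γ) ^ (e.1 i0 / 3 ^ u) : K⟮γ⟯) : M) = _
      rw [SubmonoidClass.coe_pow, gam_coe, hγdef, ← pow_mul]
    rw [h1, ← Finset.mul_prod_erase Finset.univ (fun i => c i ^ e.1 i) (Finset.mem_univ i0),
      ← Finset.mul_prod_erase Finset.univ
        (fun i => c i ^ (Function.update e.1 i0 (e.1 i0 % 3 ^ u)) i) (Finset.mem_univ i0),
      Function.update_self, ← mul_assoc, ← pow_add, Nat.div_add_mod]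
    congr 1
    apply Finset.prod_congr rfl
    intro i hi
    rw [Function.update_of_ne (Finset.ne_of_mem_erase hi)]

end Pool.Agent.TH399.RM
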